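import Pool.Agent.Helper33.HMG.Names

/-!
# Names for the sets that ZF asks for
-/

set_option autoImplicit false

namespace Pool.Agent.Helper33.HMG

open Pool.Agent.Helper87.Sym (Fml cons Sat cons_zero cons_succ putAt putAt_lt putAt_self)
open Nm

universe u

variable {P : Type u} [Preorder P] [OrderTop P]

/-- `σ` and `τ` are forced to be equal. -/
def Feq (σ τ : Nm P) : Prop := ∀ p, feq σ τ p

/-- `σ` is the collection of all `ρ` with `χ(ρ, v)`. -/
def Char (χ : Fml) (v : ℕ → Nm P) (σ : Nm P) : Prop :=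
  ∀ ρ, ∀ p, fmem ρ σ p ↔ Fc χ (cons ρ v) p

/-- the empty name -/
def emptyN : Nm P := .mk PEmpty PEmpty.elim PEmpty.elim

/-- the unordered pair -/
def upairN (σ τ : Nm P) : Nm P := .mk (ULift.{u} Bool) (fun b => cond b.down σ τ) (fun _ => ⊤)

theorem char_upairN (v : ℕ → Nm P) :
    Char (.or (.eq 0 1) (.eq 0 2)) v (upairN (v 0) (v 1)) := by
  intro ρ p
  constructor
  · intro h q hq hn
    apply feq_dense
    intro r hr
    obtain ⟨s, hs, ⟨b⟩, -, hb⟩ := h r (hr.trans hq)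
    cases b with
    | true => exact absurd hb (hn s (hs.trans hr))
    | false => exact ⟨s, hs, hb⟩
  · intro h q hq
    by_cases h1 : ∃ s, s ≤ q ∧ feq ρ (v 0) s
    · obtain ⟨s, hs, hs'⟩ := h1
      exact ⟨s, hs, ⟨true⟩, le_top, hs'⟩
    · push Not at h1
      have h2 := h q hq (fun s hs hs' => h1 s hs hs')
      exact ⟨q, le_rfl, ⟨false⟩, le_top, h2⟩

/-- the union -/
def unionN (τ : Nm P) : Nm P :=
  .mk {x : (Σ i : τ.Idx, (τ.child i).Idx) × P //
      x.2 ≤ τ.cond x.1.1 ∧ x.2 ≤ (τ.child x.1.1).cond x.1.2}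
    (fun x => (τ.child x.1.1.1).child x.1.1.2) (fun x => x.1.2)

omit [OrderTop P] in
theorem char_unionN (v : ℕ → Nm P) :
    Char (.ex (.and (.mem 0 2) (.mem 1 0))) v (unionN (v 0)) := by
  intro ρ p
  rw [Fc_ex]
  constructor
  · intro h q hq
    obtain ⟨s, hs, ⟨⟨⟨i, j⟩, r⟩, hi, hj⟩, hr, hs'⟩ := h q hq
    refine ⟨s, hs, (v 0).child i, ?_⟩
    rw [Fc_and]
    refine ⟨fmem_child _ _ (hr.trans hi), ?_⟩
    exact fmem_congr_left (feq_symm hs') (fmem_child _ _ (hr.trans hj))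
  · intro h q hq
    obtain ⟨r, hr, x, hx'⟩ := h q hq
    rw [Fc_and] at hx'
    obtain ⟨h1, h2⟩ := hx'
    obtain ⟨s, hs, i, hi, hi'⟩ := h1 r le_rfl
    have h3 : fmem ρ ((v 0).child i) s := fmem_congr_right hi' (fmem_mono h2 hs)
    obtain ⟨t, ht, j, hj, hj'⟩ := h3 s le_rfl
    exact ⟨t, ht.trans (hs.trans hr), ⟨⟨⟨i, j⟩, t⟩, ht.trans hi, hj⟩, le_rfl, hj'⟩

/-- subset names -/
def subN (τ : Nm P) (S : Set (τ.Idx × P)) : Nm P :=
  .mk {x : τ.Idx × P // x ∈ S ∧ x.2 ≤ τ.cond x.1} (fun x => τ.child x.1.1) (fun x => x.1.2)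

/-- separation -/
def sepN (φ : Fml) (τ : Nm P) (v : ℕ → Nm P) : Nm P :=
  subN τ {x | Fc φ (cons (τ.child x.1) v) x.2}

omit [OrderTop P] in
theorem fmem_sepN {φ : Fml} {σ τ : Nm P} {v : ℕ → Nm P} {p : P} :
    fmem σ (sepN φ τ v) p ↔ fmem σ τ p ∧ Fc φ (cons σ v) p := by
  constructor
  · intro h
    constructor
    · intro q hq
      obtain ⟨s, hs, ⟨⟨j, r⟩, _, h2⟩, h3, h4⟩ := h q hq
      exact ⟨s, hs, j, h3.trans h2, h4⟩
    · apply Fc_dense
      intro q hq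
      obtain ⟨s, hs, ⟨⟨j, r⟩, h1, h2⟩, h3, h4⟩ := h q hq
      refine ⟨s, hs, ?_⟩
      refine Fc_congr ?_ (Fc_mono h1 h3)
      intro i
      cases i with
      | zero => exact feq_symm h4
      | succ i => exact feq_refl _ _
  · rintro ⟨h1, h2⟩ q hq
    obtain ⟨s, hs, j, hj, hj'⟩ := h1 q hq
    refine ⟨s, hs, ⟨⟨j, s⟩, ?_, hj⟩, le_rfl, hj'⟩
    refine Fc_congr ?_ (Fc_mono h2 (hs.trans hq))
    intro i
    cases i with
    | zero => exact hj'
    | succ i => exact feq_refl _ _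

omit [OrderTop P] in
theorem char_sepN {φ : Fml} {τ : Nm P} {v : ℕ → Nm P} :
    Char (.and (.mem 0 (φ.bd + 1)) φ) (putAt φ.bd τ v) (sepN φ τ v) := by
  intro ρ p
  rw [fmem_sepN, Fc_and]
  have e1 : Fc (.mem 0 (φ.bd + 1)) (cons ρ (putAt φ.bd τ v)) p ↔ fmem ρ τ p := by
    simp only [Fc, cons_zero, cons_succ, putAt_self]
  have e2 : Fc φ (cons ρ (putAt φ.bd τ v)) p ↔ Fc φ (cons ρ v) p := by
    apply Fc_bd
    intro i hi
    cases i with
    | zero => rfl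
    | succ i => exact putAt_lt (by omega)
  rw [e1, e2]

/-- the power set -/
def powN (τ : Nm P) : Nm P :=
  .mk (Set (τ.Idx × P)) (fun S => subN τ S) (fun _ => ⊤)

omit [OrderTop P] in
theorem fmem_of_subN {τ σ : Nm P} {S : Set (τ.Idx × P)} {p : P} (h : fmem σ (subN τ S) p) :
    fmem σ τ p := by
  intro q hq
  obtain ⟨s, hs, ⟨⟨j, r⟩, _, h2⟩, h3, h4⟩ := h q hq
  exact ⟨s, hs, j, h3.trans h2, h4⟩

theorem char_powN (v : ℕ → Nm P) :
    Char (.all (.imp (.mem 0 1) (.mem 0 2))) v (powN (v 0)) := by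
  intro ρ p
  constructor
  · intro h x q hq hxρ
    apply fmem_dense
    intro r hr
    obtain ⟨s, hs, S, -, hS⟩ := h r (hr.trans hq)
    exact ⟨s, hs, fmem_of_subN (fmem_congr_right hS (fmem_mono hxρ (hs.trans hr)))⟩
  · intro h
    have h1 : ∀ x, ∀ q, q ≤ p → fmem x ρ q → fmem x (v 0) q := fun x q hq hh =>
      h x q hq hh
    have heq : feq ρ (sepN (.mem 0 1) (v 0) fun _ => ρ) p := by
      refine feq_of_fmem' ?_
      intro x q hq
      rw [fmem_sepN]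
      constructor
      · exact fun hh => ⟨h1 x q hq hh, hh⟩
      · exact fun hh => hh.2
    exact fun q hq => ⟨q, le_rfl, _, le_top, feq_mono heq hq⟩

/-- Collection, in forcing form. -/
theorem exists_coll {φ : Fml} {τ : Nm P} {v : ℕ → Nm P} :
    ∃ β : Nm P, ∀ σ p, fmem σ τ p → Fc (.ex φ) (cons σ v) p →
      ∀ q, q ≤ p → ∃ r, r ≤ q ∧ ∃ y, fmem y β r ∧ Fc φ (cons y (cons σ v)) r := by
  classical
  let pick : τ.Idx × P → Nm P := fun x =>
    if h : ∃ y, Fc φ (cons y (cons (τ.child x.1) v)) x.2 then h.choose else emptyN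
  let β : Nm P := .mk (τ.Idx × P) (fun x => pick x) (fun _ => ⊤)
  refine ⟨β, ?_⟩
  intro σ p hmem hφ q hq
  rw [Fc_ex] at hφ
  obtain ⟨r, hr, y, hy'⟩ := hφ q hq
  obtain ⟨s, hs, i, hi, hi'⟩ := hmem r (hr.trans hq)
  have h1 : Fc φ (cons y (cons (τ.child i) v)) s := by
    refine Fc_congr ?_ (Fc_mono hy' hs)
    intro j
    rcases j with _ | _ | j
    · exact feq_refl _ _
    · exact hi'
    · exact feq_refl _ _
  have h2 : ∃ y, Fc φ (cons y (cons (τ.child (i, s).1) v)) (i, s).2 := ⟨y, h1⟩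
  have h3 : pick (i, s) = h2.choose := by
    simp only [pick]
    rw [dif_pos h2]
  have h4 := h2.choose_spec
  rw [← h3] at h4
  refine ⟨s, hs.trans hr, pick (i, s), ?_, ?_⟩
  · exact fmem_child β (i, s) le_top
  · refine Fc_congr ?_ h4
    intro j
    rcases j with _ | _ | j
    · exact feq_refl _ _
    · exact feq_symm hi'
    · exact feq_refl _ _

end Pool.Agent.Helper33.HMG
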