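import Pool.Agent.Helper87.SymExist

/-!
# Forcing over a preorder in an arbitrary universe: names and the forcing relation

This is the development of `Pool.Agent.Helper87.Sym` without symmetries, for a preorder `P` in an
arbitrary universe.
-/

set_option autoImplicit false

namespace Pool.Agent.Helper33.HMG

open Pool.Agent.Helper87.Sym (Fml cons Sat cons_zero cons_succ)

universe u v

/-- `P`-names. -/
inductive Nm (P : Type u) : Type (u + 1)
  | mk (ι : Type u) (x : ι → Nm P) (c : ι → P) : Nm P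

namespace Nm

variable {P : Type u}

/-- The index type of a name. -/
def Idx : Nm P → Type u
  | mk ι _ _ => ι

/-- The members of a name. -/
def child : (τ : Nm P) → τ.Idx → Nm P
  | mk _ x _ => x

/-- The conditions of a name. -/
def cond : (τ : Nm P) → τ.Idx → P
  | mk _ _ c => c

@[simp] theorem eta (τ : Nm P) : mk τ.Idx τ.child τ.cond = τ := by cases τ; rfl

end Nm

open Nm

variable {P : Type u} [Preorder P]

/-- `p` forces `σ = τ`. -/
def feq : Nm P → Nm P → P → Prop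
  | mk _ x c, mk _ y d => fun p =>
    (∀ i, ∀ q, q ≤ p → q ≤ c i → ∃ s, s ≤ q ∧ ∃ j, s ≤ d j ∧ feq (x i) (y j) s) ∧
    (∀ j, ∀ q, q ≤ p → q ≤ d j → ∃ s, s ≤ q ∧ ∃ i, s ≤ c i ∧ feq (x i) (y j) s)

/-- `p` forces `σ ∈ τ`. -/
def fmem (σ τ : Nm P) (p : P) : Prop :=
  ∀ q, q ≤ p → ∃ s, s ≤ q ∧ ∃ j : τ.Idx, s ≤ τ.cond j ∧ feq σ (τ.child j) s

theorem feq_iff (σ τ : Nm P) (p : P) : feq σ τ p ↔
    (∀ i : σ.Idx, ∀ q, q ≤ p → q ≤ σ.cond i →
      ∃ s, s ≤ q ∧ ∃ j : τ.Idx, s ≤ τ.cond j ∧ feq (σ.child i) (τ.child j) s) ∧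
    (∀ j : τ.Idx, ∀ q, q ≤ p → q ≤ τ.cond j →
      ∃ s, s ≤ q ∧ ∃ i : σ.Idx, s ≤ σ.cond i ∧ feq (σ.child i) (τ.child j) s) := by
  cases σ; cases τ; rfl

theorem feq_mono {σ τ : Nm P} {p q : P} (h : feq σ τ p) (hq : q ≤ p) : feq σ τ q := by
  rw [feq_iff] at h ⊢
  exact ⟨fun i r hr => h.1 i r (hr.trans hq), fun j r hr => h.2 j r (hr.trans hq)⟩

theorem feq_dense {σ τ : Nm P} {p : P} (h : ∀ q, q ≤ p → ∃ r, r ≤ q ∧ feq σ τ r) :
    feq σ τ p := by
  rw [feq_iff]
  constructor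
  · intro i q hq hqi
    obtain ⟨r, hr, hr'⟩ := h q hq
    rw [feq_iff] at hr'
    obtain ⟨s, hs, hs'⟩ := hr'.1 i r le_rfl (hr.trans hqi)
    exact ⟨s, hs.trans hr, hs'⟩
  · intro i q hq hqi
    obtain ⟨r, hr, hr'⟩ := h q hq
    rw [feq_iff] at hr'
    obtain ⟨s, hs, hs'⟩ := hr'.2 i r le_rfl (hr.trans hqi)
    exact ⟨s, hs.trans hr, hs'⟩

theorem fmem_mono {σ τ : Nm P} {p q : P} (h : fmem σ τ p) (hq : q ≤ p) : fmem σ τ q :=
  fun r hr => h r (hr.trans hq)

theorem fmem_dense {σ τ : Nm P} {p : P} (h : ∀ q, q ≤ p → ∃ r, r ≤ q ∧ fmem σ τ r) :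
    fmem σ τ p := by
  intro q hq
  obtain ⟨r, hr, hr'⟩ := h q hq
  obtain ⟨s, hs, hs'⟩ := hr' r le_rfl
  exact ⟨s, hs.trans hr, hs'⟩

theorem feq_refl (σ : Nm P) (p : P) : feq σ σ p := by
  induction σ generalizing p with
  | mk ι x c ih =>
    rw [feq_iff]
    exact ⟨fun i q _ hqi => ⟨q, le_rfl, i, hqi, ih i q⟩, fun i q _ hqi => ⟨q, le_rfl, i, hqi, ih i q⟩⟩

theorem feq_symm {σ τ : Nm P} {p : P} (h : feq σ τ p) : feq τ σ p := by
  induction σ generalizing τ p with
  | mk ι x c ih =>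
    cases τ with
    | mk κ y d =>
      rw [feq_iff] at h ⊢
      constructor
      · intro j q hq hqj
        obtain ⟨s, hs, i, hi, hi'⟩ := h.2 j q hq hqj
        exact ⟨s, hs, i, hi, ih i hi'⟩
      · intro i q hq hqi
        obtain ⟨s, hs, j, hj, hj'⟩ := h.1 i q hq hqi
        exact ⟨s, hs, j, hj, ih i hj'⟩

theorem feq_comm {σ τ : Nm P} {p : P} : feq σ τ p ↔ feq τ σ p := ⟨feq_symm, feq_symm⟩

theorem feq_trans {ρ σ τ : Nm P} {p : P} (h : feq ρ σ p) (h' : feq σ τ p) : feq ρ τ p := by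
  induction σ generalizing ρ τ p with
  | mk ι x c ih =>
    rw [feq_iff] at h h' ⊢
    constructor
    · intro i q hq hqi
      obtain ⟨s, hs, j, hj, hj'⟩ := h.1 i q hq hqi
      obtain ⟨t, ht, k, hk, hk'⟩ := h'.1 j s (hs.trans hq) hj
      exact ⟨t, ht.trans hs, k, hk, ih j (feq_mono hj' ht) hk'⟩
    · intro i q hq hqi
      obtain ⟨s, hs, j, hj, hj'⟩ := h'.2 i q hq hqi
      obtain ⟨t, ht, k, hk, hk'⟩ := h.2 j s (hs.trans hq) hj
      exact ⟨t, ht.trans hs, k, hk, ih j hk' (feq_mono hj' ht)⟩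

theorem fmem_congr_left {σ σ' τ : Nm P} {p : P} (h : feq σ σ' p) (h' : fmem σ τ p) :
    fmem σ' τ p := by
  intro q hq
  obtain ⟨s, hs, j, hj, hj'⟩ := h' q hq
  exact ⟨s, hs, j, hj, feq_trans (feq_symm (feq_mono h (hs.trans hq))) hj'⟩

theorem fmem_congr_right {σ τ τ' : Nm P} {p : P} (h : feq τ τ' p) (h' : fmem σ τ p) :
    fmem σ τ' p := by
  rw [feq_iff] at h
  intro q hq
  obtain ⟨s, hs, j, hj, hj'⟩ := h' q hq
  obtain ⟨t, ht, k, hk, hk'⟩ := h.1 j s (hs.trans hq) hj
  exact ⟨t, ht.trans hs, k, hk, feq_trans (feq_mono hj' ht) hk'⟩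

theorem fmem_child (τ : Nm P) (j : τ.Idx) {p : P} (h : p ≤ τ.cond j) : fmem (τ.child j) τ p :=
  fun q hq => ⟨q, le_rfl, j, hq.trans h, feq_refl _ _⟩

/-- Extensionality, in forcing form. -/
theorem feq_of_fmem {σ τ : Nm P} {p : P}
    (h1 : ∀ i : σ.Idx, ∀ q, q ≤ p → q ≤ σ.cond i → fmem (σ.child i) τ q)
    (h2 : ∀ i : τ.Idx, ∀ q, q ≤ p → q ≤ τ.cond i → fmem (τ.child i) σ q) : feq σ τ p := by
  rw [feq_iff]
  constructor
  · intro i q hq hqi
    obtain ⟨s, hs, j, hj, hj'⟩ := h1 i q hq hqi q le_rfl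
    exact ⟨s, hs, j, hj, hj'⟩
  · intro i q hq hqi
    obtain ⟨s, hs, j, hj, hj'⟩ := h2 i q hq hqi q le_rfl
    exact ⟨s, hs, j, hj, feq_symm hj'⟩

/-- Extensionality, with arbitrary test names. -/
theorem feq_of_fmem' {σ τ : Nm P} {p : P}
    (h : ∀ ρ, ∀ q, q ≤ p → (fmem ρ σ q ↔ fmem ρ τ q)) : feq σ τ p :=
  feq_of_fmem (fun i q hq hqi => (h _ q hq).1 (fmem_child _ i hqi))
    (fun i q hq hqi => (h _ q hq).2 (fmem_child _ i hqi))

/-- `p` forces the formula `φ` at the assignment `v`. -/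
def Fc : Fml → (ℕ → Nm P) → P → Prop
  | .bot, _, _ => False
  | .mem i j, v, p => fmem (v i) (v j) p
  | .eq i j, v, p => feq (v i) (v j) p
  | .imp φ ψ, v, p => ∀ q, q ≤ p → Fc φ v q → Fc ψ v q
  | .all φ, v, p => ∀ x, Fc φ (cons x v) p

theorem Fc_mono {φ : Fml} {v : ℕ → Nm P} {p q : P} (h : Fc φ v p)
    (hq : q ≤ p) : Fc φ v q := by
  induction φ generalizing v p q with
  | bot => exact h
  | mem i j => exact fmem_mono h hq
  | eq i j => exact feq_mono h hq
  | imp φ ψ ihφ ihψ => exact fun r hr => h r (hr.trans hq)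
  | all φ ih => exact fun x => ih (h x) hq

theorem Fc_dense {φ : Fml} {v : ℕ → Nm P} {p : P}
    (h : ∀ q, q ≤ p → ∃ r, r ≤ q ∧ Fc φ v r) : Fc φ v p := by
  induction φ generalizing v p with
  | bot => obtain ⟨r, -, hr⟩ := h p le_rfl; exact hr
  | mem i j => exact fmem_dense h
  | eq i j => exact feq_dense h
  | imp φ ψ ihφ ihψ =>
    intro q hq hφ
    apply ihψ
    intro r hr
    obtain ⟨s, hs, hs'⟩ := h r (hr.trans hq)
    exact ⟨s, hs, hs' s le_rfl (Fc_mono hφ (hs.trans hr))⟩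
  | all φ ih =>
    intro x
    apply ih
    intro q hq
    obtain ⟨r, hr, hr'⟩ := h q hq
    exact ⟨r, hr, hr' x⟩

theorem Fc_congr {φ : Fml} {v v' : ℕ → Nm P} {p : P}
    (hv : ∀ i, feq (v i) (v' i) p) (h : Fc φ v p) : Fc φ v' p := by
  induction φ generalizing v v' p with
  | bot => exact h
  | mem i j => exact fmem_congr_left (hv i) (fmem_congr_right (hv j) h)
  | eq i j => exact feq_trans (feq_symm (hv i)) (feq_trans h (hv j))
  | imp φ ψ ihφ ihψ =>
    intro q hq hφ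
    have hv' : ∀ i, feq (v i) (v' i) q := fun i => feq_mono (hv i) hq
    exact ihψ hv' (h q hq (ihφ (fun i => feq_symm (hv' i)) hφ))
  | all φ ih =>
    intro x
    refine ih ?_ (h x)
    intro i
    cases i with
    | zero => exact feq_refl _ _
    | succ i => exact hv i

theorem Fc_bd {φ : Fml} {v v' : ℕ → Nm P} {p : P}
    (hv : ∀ i, i < φ.bd → v i = v' i) : Fc φ v p ↔ Fc φ v' p := by
  induction φ generalizing v v' p with
  | bot => rfl
  | mem i j =>
    simp only [Fc, Fml.bd] at *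
    rw [hv i (by omega), hv j (by omega)]
  | eq i j =>
    simp only [Fc, Fml.bd] at *
    rw [hv i (by omega), hv j (by omega)]
  | imp φ ψ ihφ ihψ =>
    simp only [Fc, Fml.bd] at *
    have h1 : ∀ q, Fc φ v q ↔ Fc φ v' q := fun q => ihφ fun i hi => hv i (by omega)
    have h2 : ∀ q, Fc ψ v q ↔ Fc ψ v' q := fun q => ihψ fun i hi => hv i (by omega)
    simp only [h1, h2]
  | all φ ih =>
    simp only [Fc, Fml.bd] at *
    have : ∀ x, Fc φ (cons x v) p ↔ Fc φ (cons x v') p := by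
      intro x
      apply ih
      intro i hi
      cases i with
      | zero => rfl
      | succ i => exact hv i (by omega)
    simp only [this]

section FcLemmas

variable {φ ψ : Fml} {v : ℕ → Nm P} {p : P}

theorem Fc_neg : Fc (.neg φ) v p ↔ ∀ q, q ≤ p → ¬ Fc φ v q := Iff.rfl

theorem Fc_and : Fc (.and φ ψ) v p ↔ Fc φ v p ∧ Fc ψ v p := by
  constructor
  · intro h
    constructor
    · apply Fc_dense
      intro q hq
      by_contra hc
      push Not at hc
      exact h q hq fun r hr h1 => absurd h1 (hc r hr)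
    · apply Fc_dense
      intro q hq
      by_contra hc
      push Not at hc
      exact h q hq fun r hr h1 s hs h2 => absurd h2 (hc s (hs.trans hr))
  · intro h q hq h1
    exact h1 q le_rfl (Fc_mono h.1 hq) q le_rfl (Fc_mono h.2 hq)

theorem Fc_ex : Fc (.ex φ) v p ↔ ∀ q, q ≤ p → ∃ r, r ≤ q ∧ ∃ x, Fc φ (cons x v) r := by
  constructor
  · intro h q hq
    by_contra hc
    push Not at hc
    exact h q hq fun x r hr => hc r hr x
  · intro h q hq h1
    obtain ⟨r, hr, x, h2⟩ := h q hq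
    exact h1 x r hr h2

theorem Fc_ex_of {x : Nm P} (h : Fc φ (cons x v) p) : Fc (.ex φ) v p := by
  rw [Fc_ex]
  exact fun q hq => ⟨q, le_rfl, x, Fc_mono h hq⟩

end FcLemmas

/-! ### Generic sequences -/

theorem exists_generic {P : Type u} [Preorder P] {N : Type v} {R : Type} [Countable R]
    (W : R → List N → P → N → Prop) (p0 : P) (x0 : N) :
    ∃ (pc : ℕ → P) (𝒩 : Set N), 𝒩.Countable ∧ Antitone pc ∧ pc 0 ≤ p0 ∧ x0 ∈ 𝒩 ∧
      ∀ r t, (∀ σ ∈ t, σ ∈ 𝒩) →
        ∃ k, (∃ x ∈ 𝒩, W r t (pc k) x) ∨ ∀ q, q ≤ pc k → ∀ x, ¬ W r t q x := by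
  classical
  obtain ⟨e⟩ : Nonempty (Encodable R) := nonempty_encodable R
  -- the decoded requirement at stage n
  let dec : ℕ → Option (R × List ℕ) := fun n => Encodable.decode (Nat.unpair n).1
  let step : ℕ → P × (ℕ → N) → P × (ℕ → N) := fun n s =>
    match dec n with
    | none => s
    | some (r, t) =>
      if h : ∃ qx : P × N, qx.1 ≤ s.1 ∧ W r (t.map s.2) qx.1 qx.2 then
        (h.choose.1, Function.update s.2 (n + 1) h.choose.2)
      else s
  let st : ℕ → P × (ℕ → N) := fun n => Nat.rec (p0, fun _ => x0) step n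
  have st_succ : ∀ n, st (n + 1) = step n (st n) := fun n => rfl
  have step_le : ∀ n s, (step n s).1 ≤ s.1 := by
    intro n s
    simp only [step]
    split
    · exact le_rfl
    · split
      · next h => exact h.choose_spec.1
      · exact le_rfl
  have step_fix : ∀ n s i, i ≤ n → (step n s).2 i = s.2 i := by
    intro n s i hi
    simp only [step]
    split
    · rfl
    · split
      · exact Function.update_of_ne (by omega) _ _
      · rfl
  have anti : Antitone fun n => (st n).1 := antitone_nat_of_succ_le fun n => step_le n _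
  have stab : ∀ i n, i ≤ n → (st n).2 i = (st i).2 i := by
    intro i n hin
    induction n, hin using Nat.le_induction with
    | base => rfl
    | succ n hn ih => rw [← ih, st_succ]; exact step_fix n _ i hn
  refine ⟨fun n => (st n).1, Set.range fun i => (st i).2 i, Set.countable_range _, anti, le_rfl,
    ⟨0, rfl⟩, ?_⟩
  intro r t ht
  choose! j hj using ht
  let t' : List ℕ := t.map j
  have ht' : t'.map (fun i => (st i).2 i) = t := by
    simp only [t', List.map_map]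
    conv_rhs => rw [← List.map_id t]
    apply List.map_congr_left
    intro σ hσ
    exact hj σ hσ
  -- choose a late stage
  let m : ℕ := t'.sum
  let c : ℕ := Encodable.encode ((r, t') : R × List ℕ)
  let n : ℕ := Nat.pair c m
  have hn : m ≤ n := Nat.right_le_pair _ _
  have hdec : dec n = some (r, t') := by
    simp only [dec, n, Nat.unpair_pair, c, Encodable.encodek]
  have hmap : t'.map (st n).2 = t := by
    rw [← ht']
    apply List.map_congr_left
    intro i hi
    apply stab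
    exact (List.le_sum_of_mem hi).trans hn
  by_cases h : ∃ qx : P × N, qx.1 ≤ (st n).1 ∧ W r (t'.map (st n).2) qx.1 qx.2
  · refine ⟨n + 1, Or.inl ⟨_, ⟨n + 1, rfl⟩, ?_⟩⟩
    have e1 : st (n + 1) = (h.choose.1, Function.update (st n).2 (n + 1) h.choose.2) := by
      rw [st_succ]
      simp only [step, hdec]
      rw [dif_pos h]
    have h2 := h.choose_spec.2
    have h3 : ∀ q x, W r (t'.map (st n).2) q x → W r t q x := by
      rw [hmap]
      exact fun _ _ h => h
    simp only [e1, Function.update_self]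
    exact h3 _ _ h2
  · refine ⟨n, Or.inr ?_⟩
    intro q hq x hx
    apply h
    refine ⟨(q, x), hq, ?_⟩
    rw [hmap]
    exact hx

end Pool.Agent.Helper33.HMG
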