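import Pool.Agent.Helper33.HM.Iter

/-!
# The trivial condition is the greatest one
-/

set_option autoImplicit false

namespace Pool.Agent.Helper33.HM

universe u

variable {I : Type u} [LinearOrder I] [WellFoundedLT I]

instance : OrderTop (Cond I) where
  top := Cond.one
  le_top p := by
    rw [Cond.le_iff]
    intro i q' t m' g w h
    exact h.elim

end Pool.Agent.Helper33.HM
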